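import Pool.Agent.Lib.MP_e6fef2_lc.Chain
import Pool.Agent.Lib.MP_c5d73d_lc.F.H62.Roapi

/-!
Module TW1: the two-step iteration `A * Q`.
-/

set_option autoImplicit false

universe u

open Cardinal Filter

namespace Pool.Agent.Lib.MP_e6fef2_lc.H30

open Pool.Agent.Lib.MP_100a6c_lc
open Pool.Agent.Lib.MP_c5d73d_lc.F (pr)
open Pool.Agent.Lib.MP_c5d73d_lc.F.H62 (mem_hcompl mem_reg le_iff mem_pr_iff self_mem_pr pr_le_iff
  pr_mono mem_gen iSup_pr_eq_gen eq_iSup_pr pr_ne_bot)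
open Pool.Agent.Lib.MP_e6fef2_lc

section

variable {P : Type u} [Preorder P]

theorem ro_le {b c : H1.RO P} : b ≤ c ↔ ∀ p : P, pr p ≤ b → pr p ≤ c := by
  constructor
  · intro h p hp
    exact hp.trans h
  · intro h
    rw [le_iff]
    intro p hp
    rw [← pr_le_iff] at hp ⊢
    exact h p hp

theorem ro_eq {b c : H1.RO P} (h : ∀ p : P, pr p ≤ b ↔ pr p ≤ c) : b = c :=
  le_antisymm (ro_le.2 fun p => (h p).1) (ro_le.2 fun p => (h p).2)

theorem ro_compl {b : H1.RO P} {p : P} : pr p ≤ bᶜ ↔ ∀ q ≤ p, ¬ pr q ≤ b := by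
  rw [pr_le_iff, Heyting.Regular.coe_compl, mem_hcompl]
  simp only [pr_le_iff]

theorem ro_dense {b : H1.RO P} {p : P} : pr p ≤ b ↔ ∀ q ≤ p, ∃ r ≤ q, pr r ≤ b := by
  simp only [pr_le_iff]
  exact mem_reg b p

theorem ro_iSup {ι : Sort*} {b : ι → H1.RO P} {p : P} :
    pr p ≤ ⨆ i, b i ↔ ∀ q ≤ p, ∃ r ≤ q, ∃ i, pr r ≤ b i := by
  constructor
  · intro h q hq
    by_contra hcon
    push Not at hcon
    have h1 : pr q ≤ (⨆ i, b i)ᶜ := by
      rw [ro_compl]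
      intro r hr hrb
      have h2 : (pr r : H1.RO P) ≤ (⨆ i, b i)ᶜ := by
        rw [compl_iSup]
        refine le_iInf fun i => ?_
        rw [ro_compl]
        intro r' hr' h3
        exact hcon r' (hr'.trans hr) i h3
      have h3 : (pr r : H1.RO P) ≤ ⊥ := by
        rw [← inf_compl_self (⨆ i, b i)]
        exact le_inf hrb h2
      exact pr_ne_bot r (le_bot_iff.1 h3)
    have h2 : (pr q : H1.RO P) ≤ ⊥ := by
      rw [← inf_compl_self (⨆ i, b i)]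
      exact le_inf ((pr_mono hq).trans h) h1
    exact pr_ne_bot q (le_bot_iff.1 h2)
  · intro h
    rw [ro_dense]
    intro q hq
    obtain ⟨r, hr, i, hi⟩ := h q hq
    exact ⟨r, hr, hi.trans (le_iSup _ _)⟩

theorem ro_top {b : H1.RO P} (h : ∀ p : P, pr p ≤ b) : b = ⊤ :=
  top_le_iff.1 (ro_le.2 fun p _ => h p)

end

section

variable {A : Type u} [CompleteBooleanAlgebra A] {X : Type u} (Q : BPre A X)

/-- a stronger condition -/
def cut (p : Tw Q) (a : A) (h : p.b ⊓ a ≠ ⊥) : Tw Q := ⟨p.b ⊓ a, p.x, h⟩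

theorem cut_le (p : Tw Q) (a : A) (h : p.b ⊓ a ≠ ⊥) : cut Q p a h ≤ p :=
  ⟨inf_le_left, by
    show _ ≤ Q.le p.x p.x
    rw [Q.refl]
    exact le_top⟩

theorem pr_le_twE (p : Tw Q) (a : A) : pr p ≤ twE Q a ↔ p.b ≤ a := by
  unfold twE
  constructor
  · intro h
    by_contra hcon
    have h1 : p.b ⊓ aᶜ ≠ ⊥ := by
      intro h2
      apply hcon
      rwa [← le_compl_iff_disjoint_right.trans disjoint_iff, compl_compl] at h2
    rw [ro_iSup] at h
    obtain ⟨r, hr, i, hi⟩ := h (cut Q p aᶜ h1) (cut_le Q p aᶜ h1)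
    rw [pr_le_iff, mem_pr_iff] at hi
    obtain ⟨s, hs, hsi⟩ := hi r le_rfl
    apply s.ne
    have h2 : s.b ≤ a := hsi.1.trans i.2
    have h3 : s.b ≤ aᶜ := hs.1.trans (hr.1.trans inf_le_right)
    exact le_bot_iff.1 ((le_inf h2 h3).trans (inf_compl_self a).le)
  · intro h
    exact le_iSup_of_le (⟨p, h⟩ : {p : Tw Q // p.b ≤ a}) le_rfl

theorem pr_le_twG (p : Tw Q) (x : X) :
    pr p ≤ twG Q x ↔ ∀ q ≤ p, ∃ r ≤ q, r.b ≤ Q.le r.x x := by
  unfold twG
  rw [ro_iSup]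
  constructor
  · intro h q hq
    obtain ⟨r, hr, i, hi⟩ := h q hq
    rw [pr_le_iff, mem_pr_iff] at hi
    obtain ⟨s, hs, hsi⟩ := hi r le_rfl
    exact ⟨s, hs.trans hr, le_trans (le_inf hsi.2 (hsi.1.trans i.2)) (Q.trans _ _ _)⟩
  · intro h q hq
    obtain ⟨r, hr, hrx⟩ := h q hq
    exact ⟨r, hr, ⟨r, hrx⟩, le_rfl⟩

theorem pr_le_twG_of (p : Tw Q) (x : X) (h : p.b ≤ Q.le p.x x) : pr p ≤ twG Q x :=
  le_iSup_of_le (⟨p, h⟩ : {p : Tw Q // p.b ≤ Q.le p.x x}) le_rfl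

theorem pr_le_twG_self (p : Tw Q) : pr p ≤ twG Q p.x :=
  pr_le_twG_of Q p p.x (by rw [Q.refl]; exact le_top)

theorem twE_le_iff [Nonempty X] (a b : A) : twE Q a ≤ twE Q b ↔ a ≤ b := by
  constructor
  · intro h
    by_cases ha : a = ⊥
    · rw [ha]; exact bot_le
    · obtain ⟨x⟩ := ‹Nonempty X›
      have h1 : pr (⟨a, x, ha⟩ : Tw Q) ≤ twE Q b := ((pr_le_twE Q _ _).2 le_rfl).trans h
      exact (pr_le_twE Q _ _).1 h1
  · intro h
    rw [ro_le]
    intro p hp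
    rw [pr_le_twE] at hp ⊢
    exact hp.trans h

theorem exists_inf_ne_bot {a : A} (ha : a ≠ ⊥) {ι : Sort*} {b : ι → A} (h : a ≤ ⨆ i, b i) :
    ∃ i, a ⊓ b i ≠ ⊥ := by
  by_contra hcon
  push Not at hcon
  apply ha
  rw [← inf_eq_left.2 h, inf_iSup_eq]
  simp [hcon]

theorem twE_ce [Nonempty X] : IsCE (twE Q) where
  inj a b h := le_antisymm ((twE_le_iff Q a b).1 h.le) ((twE_le_iff Q b a).1 h.ge)
  compl a := by
    apply ro_eq
    intro p
    rw [pr_le_twE, ro_compl]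
    constructor
    · intro h q hq hqa
      rw [pr_le_twE] at hqa
      exact q.ne (le_bot_iff.1 ((le_inf hqa (hq.1.trans h)).trans (inf_compl_self a).le))
    · intro h
      by_contra hcon
      have h1 : p.b ⊓ a ≠ ⊥ := fun h2 => hcon (le_compl_iff_disjoint_right.2 (disjoint_iff.2 h2))
      exact h (cut Q p a h1) (cut_le Q p a h1) ((pr_le_twE Q _ _).2 inf_le_right)
  sSup s := by
    apply le_antisymm
    · rw [ro_le]
      intro p hp
      rw [pr_le_twE] at hp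
      rw [ro_iSup]
      intro q hq
      have h1 : q.b ≤ ⨆ a : s, (a : A) := by
        rw [← sSup_eq_iSup']
        exact hq.1.trans hp
      obtain ⟨⟨a, ha⟩, h2⟩ := exists_inf_ne_bot q.ne h1
      refine ⟨cut Q q a h2, cut_le Q q a h2, a, ?_⟩
      refine le_iSup_of_le ha ?_
      exact (pr_le_twE Q _ _).2 inf_le_right
    · refine iSup₂_le fun a ha => (twE_le_iff Q _ _).2 (le_sSup ha)

theorem pr_eq (p : Tw Q) : pr p = twE Q p.b ⊓ twG Q p.x := by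
  apply le_antisymm
  · exact le_inf ((pr_le_twE Q p p.b).2 le_rfl) (pr_le_twG_self Q p)
  · rw [ro_le]
    intro q hq
    have h1 := (pr_le_twE Q _ _).1 (hq.trans inf_le_left)
    have h2 := (pr_le_twG Q _ _).1 (hq.trans inf_le_right)
    rw [pr_le_iff, mem_pr_iff]
    intro q' hq'
    obtain ⟨r, hr, hrx⟩ := h2 q' hq'
    exact ⟨r, hr, (hr.1.trans hq'.1).trans h1, hrx⟩

theorem prj_pr (p : Tw Q) : prj (twE Q) (pr p) = p.b := by
  unfold prj
  have h : {a | pr p ≤ twE Q a} = Set.Ici p.b := by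
    ext a
    exact pr_le_twE Q p a
  rw [h]
  exact csInf_Ici

theorem prj_twG (x : X) : prj (twE Q) (twG Q x) = ⊤ := by
  unfold prj
  rw [sInf_eq_top]
  intro a ha
  have ha' : twG Q x ≤ twE Q a := ha
  by_cases h : (⊤ : A) = ⊥
  · exact le_antisymm le_top (h.le.trans bot_le)
  · have h1 : pr (⟨⊤, x, h⟩ : Tw Q) ≤ twG Q x := pr_le_twG_self Q (⟨⊤, x, h⟩ : Tw Q)
    exact top_le_iff.1 ((pr_le_twE Q _ _).1 (h1.trans ha'))

theorem genF : GenF (twE Q) Q (twG Q) where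
  ne := ro_top fun p => (pr_le_twG_self Q p).trans (le_iSup (twG Q) p.x)
  up x y := by
    rw [ro_le]
    intro q hq
    have h1 := (pr_le_twE Q _ _).1 (hq.trans inf_le_left)
    have h2 := (pr_le_twG Q _ _).1 (hq.trans inf_le_right)
    rw [pr_le_twG]
    intro q' hq'
    obtain ⟨r, hr, hrx⟩ := h2 q' hq'
    exact ⟨r, hr, le_trans (le_inf hrx ((hr.1.trans hq'.1).trans h1)) (Q.trans _ _ _)⟩
  dir x y := by
    rw [ro_le]
    intro q hq
    have h1 := (pr_le_twG Q _ _).1 (hq.trans inf_le_left)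
    have h2 := (pr_le_twG Q _ _).1 (hq.trans inf_le_right)
    rw [ro_iSup]
    intro q' hq'
    obtain ⟨r, hr, hrx⟩ := h1 q' hq'
    obtain ⟨s, hs, hsy⟩ := h2 r (hr.trans hq')
    refine ⟨s, hs.trans hr, s.x, le_inf (le_inf (pr_le_twG_self Q s) ?_) ?_⟩
    · rw [pr_le_twE]
      exact le_trans (le_inf hs.2 (hs.1.trans hrx)) (Q.trans _ _ _)
    · rw [pr_le_twE]
      exact hsy
  gn D hD := by
    apply ro_top
    intro p
    rw [ro_iSup]
    intro q _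
    have h1 : q.b ≤ ⨆ y, D y ⊓ Q.le y q.x := by rw [hD]; exact le_top
    obtain ⟨y, hy⟩ := exists_inf_ne_bot q.ne h1
    refine ⟨⟨q.b ⊓ (D y ⊓ Q.le y q.x), y, hy⟩, ⟨inf_le_left, inf_le_right.trans inf_le_right⟩,
      y, le_inf ?_ (pr_le_twG_self Q _)⟩
    rw [pr_le_twE]
    exact inf_le_right.trans inf_le_left

end

theorem tw1 : Tw1Statement.{u} := fun _ _ _ _ Q =>
  ⟨twE_ce Q, pr_le_twE Q, pr_eq Q, prj_pr Q, prj_twG Q, genF Q⟩

end Pool.Agent.Lib.MP_e6fef2_lc.H30
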